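import Pool.Agent.helper59.PT.Spec
import Pool.Agent.helper16.LSZ.Star

set_option linter.all false
set_option autoImplicit false

/-! Row BL of the plan for three copies (MP_2dd521), by helper22: block expansion of `per (circ (c0, c1, 0) ⊗ B)`. -/

namespace Pool.Agent.helper59.PTBL

open Finset BigOperators Pool.Agent.helper16.LSZ

section

variable {J : Type} [Fintype J] [DecidableEq J]

/-- the good row labellings -/
def ths (S : Fin 3 → Finset J) (i : Fin 3) (a : J) : Fin 3 := if a ∈ S i then i else i + 1

/-- the good column labellings -/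
def thr (T : Fin 3 → Finset J) (i : Fin 3) (b : J) : Fin 3 := if b ∈ T i then i else i + 2

theorem f1 (i : Fin 3) : i + 1 ≠ i := by revert i; decide
theorem f2 (i : Fin 3) : i + 2 ≠ i := by revert i; decide
theorem f3 (i : Fin 3) : i + 1 ≠ i + 2 := by revert i; decide
theorem f4 (i : Fin 3) : i + 1 + 2 = i := by revert i; decide
theorem f5 (i j : Fin 3) : j = i ∨ j = i + 1 ∨ j = i + 2 := by revert i j; decide
theorem f6 (i : Fin 3) : i + 2 + 1 = i := by revert i; decide
theorem f7 (i : Fin 3) : i + 2 + 2 = i + 1 := by revert i; decide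
theorem f8 (i : Fin 3) : i - i = 0 := by revert i; decide
theorem f9 (i : Fin 3) : i + 1 - i = 1 := by revert i; decide
theorem f10 (i : Fin 3) : i + 2 - i = 2 := by revert i; decide

theorem ths_eq (S : Fin 3 → Finset J) (i : Fin 3) (a : J) : ths S i a = i ↔ a ∈ S i := by
  unfold ths
  split_ifs with h
  · simp [h]
  · simp [h, f1]

theorem ths_eq1 (S : Fin 3 → Finset J) (i : Fin 3) (a : J) : ths S i a = i + 1 ↔ a ∉ S i := by
  unfold ths
  split_ifs with h
  · simp [h, (f1 i).symm]
  · simp [h]

theorem ths_ne (S : Fin 3 → Finset J) (i : Fin 3) (a : J) : ths S i a ≠ i + 2 := by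
  unfold ths
  split_ifs with h
  · exact (f2 i).symm
  · exact f3 i

theorem thr_eq (T : Fin 3 → Finset J) (i : Fin 3) (a : J) : thr T i a = i ↔ a ∈ T i := by
  unfold thr
  split_ifs with h
  · simp [h]
  · simp [h, f2]

theorem thr_eq1 (T : Fin 3 → Finset J) (i : Fin 3) (a : J) : thr T (i + 1) a = i ↔ a ∉ T (i + 1) := by
  unfold thr
  split_ifs with h
  · simp [h, f1]
  · simp [h, f4]

theorem thr_ne (T : Fin 3 → Finset J) (i : Fin 3) (a : J) : thr T (i + 2) a ≠ i := by
  unfold thr
  split_ifs with h
  · exact f2 i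
  · rw [f7]; exact f1 i

theorem ths_inj : Function.Injective (ths (J := J)) := by
  intro S S' h
  funext i
  ext a
  rw [← ths_eq, ← ths_eq, h]

theorem thr_inj : Function.Injective (thr (J := J)) := by
  intro S S' h
  funext i
  ext a
  rw [← thr_eq, ← thr_eq, h]

theorem not_range_ths (s : Fin 3 → J → Fin 3) (h : s ∉ Set.range (ths (J := J))) :
    ∃ i a, s i a = i + 2 := by
  by_contra hcon
  push Not at hcon
  apply h
  refine ⟨fun i => univ.filter fun a => s i a = i, ?_⟩
  funext i a
  rcases f5 i (s i a) with h1 | h1 | h1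
  · rw [h1]
    rw [ths_eq]
    simp [h1]
  · rw [h1, ths_eq1]
    simp [h1, f1]
  · exact absurd h1 (hcon i a)

theorem not_range_thr (s : Fin 3 → J → Fin 3) (h : s ∉ Set.range (thr (J := J))) :
    ∃ i a, s i a = i + 1 := by
  by_contra hcon
  push Not at hcon
  apply h
  refine ⟨fun i => univ.filter fun a => s i a = i, ?_⟩
  funext i a
  rcases f5 i (s i a) with h1 | h1 | h1
  · rw [h1]
    rw [thr_eq]
    simp [h1]
  · exact absurd h1 (hcon i a)
  · rw [h1]
    unfold thr
    rw [if_neg]
    simp [h1, f2]

open Classical in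
/-- the summand of the expansion -/
noncomputable def tm (A : Fin 3 → Fin 3 → ℂ) (B : J → J → ℂ) (s r : Fin 3 → J → Fin 3) : ℂ :=
  ∏ i, ∏ i', (A i i' ^ (univ.filter (fun a => s i a = i')).card *
        pp B (fun a => s i a = i') (fun b => r i' b = i))

theorem tm_left (A : Fin 3 → Fin 3 → ℂ) (hA : ∀ i, A i (i + 2) = 0) (B : J → J → ℂ)
    (s r : Fin 3 → J → Fin 3) (h : s ∉ Set.range (ths (J := J))) : tm A B s r = 0 := by
  classical
  obtain ⟨i, a, ha⟩ := not_range_ths s h
  unfold tm
  apply Finset.prod_eq_zero (mem_univ i)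
  apply Finset.prod_eq_zero (mem_univ (i + 2))
  rw [hA, zero_pow, zero_mul]
  apply Finset.card_ne_zero_of_mem (a := a)
  simp [ha]

theorem tm_right (A : Fin 3 → Fin 3 → ℂ) (B : J → J → ℂ)
    (S : Fin 3 → Finset J) (r : Fin 3 → J → Fin 3) (h : r ∉ Set.range (thr (J := J))) :
    tm A B (ths S) r = 0 := by
  classical
  obtain ⟨i, a, ha⟩ := not_range_thr r h
  unfold tm
  apply Finset.prod_eq_zero (mem_univ (i + 1))
  apply Finset.prod_eq_zero (mem_univ i)
  rw [pp_eq_zero, mul_zero]
  have h1 : (univ.filter fun a => ths S (i + 1) a = i) = ∅ := by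
    rw [Finset.filter_eq_empty_iff]
    intro b _
    have := ths_ne S (i + 1) b
    rw [f4] at this
    exact this
  have h2 : (univ.filter fun b => r i b = i + 1).card ≠ 0 := by
    apply Finset.card_ne_zero_of_mem (a := a)
    simp [ha]
  intro h3
  apply h2
  rw [← Finset.card_empty (α := J), ← h1]
  convert h3.symm

theorem tm_good (A : Fin 3 → Fin 3 → ℂ) (B : J → J → ℂ) (S T : Fin 3 → Finset J) :
    tm A B (ths S) (thr T) = ∏ i, ((A i i ^ (S i).card * GG B (S i) (T i)) *
      (A i (i + 1) ^ (Fintype.card J - (S i).card) * VV B (S i) (T (i + 1)))) := by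
  classical
  unfold tm
  refine Finset.prod_congr rfl fun i _ => ?_
  have hu : (univ : Finset (Fin 3)) = {i, i + 1, i + 2} := by
    revert i; decide
  rw [hu, Finset.prod_insert (by simp [(f1 i).symm, (f2 i).symm]),
    Finset.prod_insert (by simp [f3]), Finset.prod_singleton]
  have e1 := aux1 (A i i) (fun a => ths S i a = i) (fun b => thr T i b = i) (S i) (T i) B
    (fun a => ths_eq S i a) (fun b => thr_eq T i b)
  have e2 := aux2 (A i (i + 1)) (fun a => ths S i a = i + 1) (fun b => thr T (i + 1) b = i)
    (S i) (T (i + 1)) B (fun a => ths_eq1 S i a) (fun b => thr_eq1 T i b)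
  have e3 : A i (i + 2) ^ (univ.filter (fun a => ths S i a = i + 2)).card *
      pp B (fun a => ths S i a = i + 2) (fun b => thr T (i + 2) b = i) = 1 := by
    have h2 : (univ.filter (fun a => ths S i a = i + 2)) = ∅ := by
      rw [Finset.filter_eq_empty_iff]
      intro b _
      exact ths_ne S i b
    rw [h2, Finset.card_empty, pow_zero, one_mul]
    exact pp_false _ _ _ (fun a => ths_ne S i a) (fun b => thr_ne T i b)
  rw [e3, mul_one]
  refine congrArg₂ (· * ·) ?_ ?_
  · rw [← e1]
  · rw [← e2]

theorem sum_tm (A : Fin 3 → Fin 3 → ℂ) (hA : ∀ i, A i (i + 2) = 0) (B : J → J → ℂ) :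
    ∑ s : Fin 3 → J → Fin 3, ∑ r : Fin 3 → J → Fin 3, tm A B s r =
      ∑ S : Fin 3 → Finset J, ∑ T : Fin 3 → Finset J, tm A B (ths S) (thr T) := by
  classical
  have h1 : ∀ F : (Fin 3 → J → Fin 3) → ℂ, (∀ s, s ∉ Set.range (ths (J := J)) → F s = 0) →
      ∑ s, F s = ∑ S, F (ths S) := by
    intro F hF
    rw [← Finset.sum_image (s := univ) (g := ths (J := J)) (f := F) (fun a _ b _ h => ths_inj h)]
    symm
    apply Finset.sum_subset (Finset.subset_univ _)
    intro s _ hs
    apply hF
    rintro ⟨S, rfl⟩
    exact hs (Finset.mem_image_of_mem _ (mem_univ S))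
  have h2 : ∀ F : (Fin 3 → J → Fin 3) → ℂ, (∀ s, s ∉ Set.range (thr (J := J)) → F s = 0) →
      ∑ s, F s = ∑ S, F (thr S) := by
    intro F hF
    rw [← Finset.sum_image (s := univ) (g := thr (J := J)) (f := F) (fun a _ b _ h => thr_inj h)]
    symm
    apply Finset.sum_subset (Finset.subset_univ _)
    intro s _ hs
    apply hF
    rintro ⟨S, rfl⟩
    exact hs (Finset.mem_image_of_mem _ (mem_univ S))
  rw [h1 (fun s => ∑ r, tm A B s r)
    (fun s hs => Finset.sum_eq_zero fun r _ => tm_left A hA B s r hs)]
  refine Finset.sum_congr rfl fun S _ => ?_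
  exact h2 (fun r => tm A B (ths S) r) (fun r hr => tm_right A B S r hr)

end

theorem rowBL : Pool.Agent.helper59.PT.RowBL := by
  classical
  intro m B c0 c1
  have hper : (Pool.Agent.helper59.PT.KB ![c0, c1, 0] B).permanent =
      ∑ s : Fin 3 → Fin m → Fin 3, ∑ r : Fin 3 → Fin m → Fin 3,
        tm (fun i i' => ((Pool.Agent.helper59.PT.circ ![c0, c1, 0] i i' : ℝ) : ℂ))
          (fun a b => B a b) s r := by
    rw [permanent_eq]
    have h9 := kron_expand (I := Fin 3) (J := Fin m)
      (fun i i' => ((Pool.Agent.helper59.PT.circ ![c0, c1, 0] i i' : ℝ) : ℂ)) (fun a b => B a b)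
    unfold tm
    refine Eq.trans (Eq.trans (Eq.refl _) h9) ?_
    refine Finset.sum_congr (Finset.ext fun x => by simp) fun s _ => ?_
    refine Finset.sum_congr (Finset.ext fun x => by simp) fun r _ => ?_
    refine Finset.prod_congr rfl fun i _ => Finset.prod_congr rfl fun i' _ => ?_
    have hc : ∀ (p : Fin m → Prop) (d1 d2 : DecidablePred p),
        (@Finset.filter (Fin m) p d1 univ).card = (@Finset.filter (Fin m) p d2 univ).card := by
      intro p d1 d2
      rw [Subsingleton.elim d1 d2]
    show _ ^ _ * _ = _ ^ _ * _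
    rw [hc]
  have hA2 : ∀ i : Fin 3,
      ((Pool.Agent.helper59.PT.circ ![c0, c1, 0] i (i + 2) : ℝ) : ℂ) = 0 := by
    intro i
    unfold Pool.Agent.helper59.PT.circ
    rw [f10]
    simp
  have hA0 : ∀ i : Fin 3,
      ((Pool.Agent.helper59.PT.circ ![c0, c1, 0] i i : ℝ) : ℂ) = c0 := by
    intro i
    unfold Pool.Agent.helper59.PT.circ
    rw [f8]
    simp
  have hA1 : ∀ i : Fin 3,
      ((Pool.Agent.helper59.PT.circ ![c0, c1, 0] i (i + 1) : ℝ) : ℂ) = c1 := by
    intro i
    unfold Pool.Agent.helper59.PT.circ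
    rw [f9]
    simp
  rw [hper, sum_tm _ hA2]
  simp_rw [tm_good, hA0, hA1, Fintype.card_fin]
  simp_rw [Finset.mul_sum]
  rw [Finset.sum_comm]
  rw [Finset.sum_comm (s := Finset.range (m + 1))]
  rw [Finset.sum_comm]
  refine Finset.sum_congr rfl fun S _ => ?_
  rw [Finset.sum_comm (s := Finset.range (m + 1))]
  refine Finset.sum_congr rfl fun T _ => ?_
  by_cases hc : ∀ p, (S p).card = (S 0).card ∧ (T p).card = (S 0).card
  · have hle : (S 0).card ≤ m := by
      have := Finset.card_le_univ (S 0)
      simpa using this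
    rw [Finset.sum_eq_single (S 0).card]
    · rw [if_pos ⟨fun p => (hc p).1, fun p => (hc p).2⟩, Fin.prod_univ_three, Fin.prod_univ_three,
        (hc 1).1, (hc 2).1]
      push_cast
      ring
    · intro k _ hk
      rw [if_neg, mul_zero]
      rintro ⟨h1, h2⟩
      exact hk (h1 0).symm
    · intro h
      exfalso
      apply h
      rw [Finset.mem_range]
      omega
  · have hz : ∏ i, ((c0 : ℂ) ^ (S i).card * GG (fun a b => B a b) (S i) (T i) *
        ((c1 : ℂ) ^ (m - (S i).card) * VV (fun a b => B a b) (S i) (T (i + 1)))) = 0 := by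
      by_contra hne
      apply hc
      have h0 : ∀ i, (S i).card = (T i).card ∧ (S i).card = (T (i + 1)).card := by
        intro i
        constructor
        · by_contra h
          apply hne
          apply Finset.prod_eq_zero (mem_univ i)
          rw [GG_eq_zero _ _ _ h]
          simp
        · by_contra h
          apply hne
          apply Finset.prod_eq_zero (mem_univ i)
          rw [VV_eq_zero _ _ _ h]
          simp
      have a0 := h0 0
      have a1 := h0 1
      have a2 := h0 2
      have e1 : (0 : Fin 3) + 1 = 1 := by decide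
      have e2 : (1 : Fin 3) + 1 = 2 := by decide
      have e3 : (2 : Fin 3) + 1 = 0 := by decide
      rw [e1] at a0
      rw [e2] at a1
      rw [e3] at a2
      intro p
      fin_cases p
      · constructor
        · rfl
        · show (T 0).card = (S 0).card
          omega
      · constructor
        · show (S 1).card = (S 0).card
          omega
        · show (T 1).card = (S 0).card
          omega
      · constructor
        · show (S 2).card = (S 0).card
          omega
        · show (T 2).card = (S 0).card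
          omega
    refine Eq.trans hz ?_
    symm
    apply Finset.sum_eq_zero
    intro k _
    rw [if_neg, mul_zero]
    rintro ⟨h1, h2⟩
    apply hc
    intro p
    rw [h1 p, h2 p, h1 0]
    exact ⟨rfl, rfl⟩

end Pool.Agent.helper59.PTBL
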