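import Pool.Agent.helper59.PT.Spec

set_option linter.all false
set_option autoImplicit false

/-!
# Pate's inequality for three copies: arbitrary paths (MP_2dd521_co)

The rows `LE, LG, DV, AS` of `Spec.lean` treat only straight paths through `J_3`. Here the path of
circulants `γ : [0, 1] → (Fin 3 → ℝ)` is arbitrary: the certificate is needed for a point `c` and a
direction `v` (`CEV c v`), and the conclusion `Up c c'` is transitive, so that several segments can be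
glued. Rows with the suffix `2` replace those of `Spec.lean` (which follow from them); the other
rows of `Spec.lean` (EX, UN, WK, TP, RO, RE, RP, LR, WH, TW, TR, BL, BA) are used unchanged.
-/

namespace Pool.Agent.helper59.PT

open MvPolynomial
open scoped ComplexConjugate ComplexOrder

/-- directional derivative of `perc` -/
def dperc (c v : Fin 3 → ℝ) : ℝ :=
  (3 * c 0 ^ 2 + 3 * c 1 * c 2) * v 0 + (3 * c 1 ^ 2 + 3 * c 0 * c 2) * v 1 +
    (3 * c 2 ^ 2 + 3 * c 0 * c 1) * v 2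

/-- the symbol of the derivative of `e_3(ξ) e_3(η)` in the direction `v`: one ket leg `ξ_p` is
replaced by a letter which contracts with `y_q` to `v (q - p)` -/
noncomputable def PV (c v : Fin 3 → ℝ) : Sy :=
  ∑ p : Fin 3, ((∑ q : Fin 3, C (v (q - p)) * X (Sum.inr q)) * WH c [p + 1, p + 2] [0, 1, 2] +
    ∑ q : Fin 3, C (v (q - p)) * WH c [p + 1, p + 2] ([0, 1, 2].eraseIdx (q : ℕ)))

/-- the polynomial of the leg inequality in the direction `v` -/
noncomputable def HPV (c v : Fin 3 → ℝ) : Sy := C (perc c) * PV c v - C (dperc c v) * P2 c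

/-- the certificate at the point `c` in the direction `v` -/
def CEV (c v : Fin 3 → ℝ) : Prop := ∀ Λ : Sy →ₗ[ℝ] ℝ, IsRing c Λ → 0 ≤ Λ (HPV c v)

/-- the derivation of the bra `y_q` along the leg -/
noncomputable def DD {ι : Type} [Fintype ι] (e : ι → ℂ) (q : Fin 3)
    (Q : MvPolynomial (Sl × ι) ℂ) : MvPolynomial (Sl × ι) ℂ :=
  ∑ a, C (e a) * pderiv (Sum.inr q, a) Q

/-- the leg inequality at `c` in the direction `v` -/
def LEGV (c v : Fin 3 → ℝ) : Prop := ∀ (ι : Type) [Fintype ι] [DecidableEq ι]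
  (L : MvPolynomial (Sl × ι) ℂ →ₗ[ℂ] ℂ), IsG (KC c) L → ∀ (e : ι → ℂ) (F : MvPolynomial ι ℂ),
  ∑ a, e a * conj (e a) = 1 →
  dperc c v * (L (xi e 0 * xi e 1 * xi e 2 * (eta e 0 * eta e 1 * eta e 2) * GM e F 0 0)).re ≤
    perc c * ∑ p : Fin 3, ∑ q : Fin 3, v (q - p) *
      (L (DD e q (xi e (p + 1) * xi e (p + 2) * (eta e 0 * eta e 1 * eta e 2) * GM e F 0 0))).re

/-- **pt:LE2** the leg inequality from the certificate.
Proof. `DD e q` is a derivation with `DD e q (xi e p) = 0`, `DD e q (eta e q') = δ_{q q'}`,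
`DD e q (GM e F 0 0) = GM e F 0 (Pi.single q 1)`, so
`L (DD e q (ξ_{p+1} ξ_{p+2} η_0 η_1 η_2 G)) = L (ξ ξ (η without q) G) + L (ξ ξ η η η GM e F 0 δ_q)`; the
first is `Lam (WH c [p+1, p+2] (… eraseIdx q))` by `RowWH`, the second is
`Lam (X (inr q) * WH c [p+1, p+2] [0, 1, 2])`: this is the slightly more general form of `RowWH` with
`GM e F a b` and the monomial `(a, b)` (`RowWH'` below). Sum up with the weights, use linearity of
`Lam` and `CEV` for `Lam L e F`, which satisfies `IsRing c` by `RowLR`, `RowTW`. -/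
def RowLE2 : Prop := (∀ (ι : Type) [Fintype ι] [DecidableEq ι] (c : Fin 3 → ℝ)
    (L : MvPolynomial (Sl × ι) ℂ →ₗ[ℂ] ℂ), IsG (KC c) L → ∀ (e : ι → ℂ) (F : MvPolynomial ι ℂ),
    ∑ a, e a * conj (e a) = 1 → ∀ (w w' : List (Fin 3)) (n : Sl →₀ ℕ),
    (L ((w.map (xi e)).prod * (w'.map (eta e)).prod *
      GM e F (fun p => n (Sum.inl p)) (fun q => n (Sum.inr q)))).re =
      Lam L e F (monomial n 1 * WH c w w')) →
  RowLR → RowTW → ∀ c v : Fin 3 → ℝ, Adm c → CEV c v → LEGV c v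

/-- **pt:WH'** the general form of `RowWH` (same proof; the induction gives this form anyway) -/
def RowWH' : Prop := ∀ (ι : Type) [Fintype ι] [DecidableEq ι] (c : Fin 3 → ℝ)
    (L : MvPolynomial (Sl × ι) ℂ →ₗ[ℂ] ℂ), IsG (KC c) L → ∀ (e : ι → ℂ) (F : MvPolynomial ι ℂ),
    ∑ a, e a * conj (e a) = 1 → ∀ (w w' : List (Fin 3)) (n : Sl →₀ ℕ),
    (L ((w.map (xi e)).prod * (w'.map (eta e)).prod *
      GM e F (fun p => n (Sum.inl p)) (fun q => n (Sum.inr q)))).re =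
      Lam L e F (monomial n 1 * WH c w w')

/-- **pt:LG2** the leg inequality for permanents, in the direction `v`. With `M = circ c ⊗ B`:
`dperc c v * Re per M ≤ perc c * ∑ p, Re per (M with the row (p, s) replaced by
(q, t) ↦ v (q - p) * B s t)`.
Proof. As for `RowLG`: `B s t = ∑ i, l s i * conj (l t i)`, `per M = L (e_3 (ℓ_s(x)) e_3 (conj
ℓ_s (y)) G)`, `G = GM e F 0 0`, `F = ∏_{t ≠ s} ℓ_t`, `l s = b • e`. For the matrix with the row replaced
use the functional `L'` of `RowEX` on `V' = (Sl × ι) ⊕ (Fin 3 × ι)` where the new ket `x'_p`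
contracts with `y_q` to `v (q - p)` (and with nothing else): by `RowWK` its permanent is
`L' (ℓ_s (x'_p) * (the other kets) * (all bras))`; by `step` this is
`∑ q, v (q - p) * ∑ a, l s a * L' (pderiv (inr q, a) (…))`, and `L'` restricted to the
polynomials in the old variables satisfies `IsG (KC c)` (this restriction can serve as `L`
throughout). So `∑ p, per (…) = b ^ 6 * ∑ p q, v (q - p) * L (DD e q (ξ_{p+1} ξ_{p+2} η η η G))`. -/
def RowLG2 : Prop := RowEX → RowWK → ∀ (c v : Fin 3 → ℝ), LEGV c v →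
  ∀ (m : ℕ) (B : Matrix (Fin m) (Fin m) ℂ), B.PosSemidef → ∀ s : Fin m,
  dperc c v * (KB c B).permanent.re ≤ perc c * ∑ p : Fin 3,
    ((KB c B).updateRow (p, s) (fun y => (v (y.1 - p) : ℂ) * B s y.2)).permanent.re

/-- **pt:DV2** the derivative of the permanent along a path. Proof: `Matrix.permanent` is a sum of
products; product rule; the sum over the rows `x = (p, s)` of the permanents with the row `x`
replaced by its derivative. -/
def RowDV2 : Prop := ∀ (m : ℕ) (B : Matrix (Fin m) (Fin m) ℂ) (γ : ℝ → Fin 3 → ℝ)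
  (v : Fin 3 → ℝ) (t : ℝ), HasDerivAt γ v t →
  HasDerivAt (fun t => (KB (γ t) B).permanent.re)
    (∑ s : Fin m, ∑ p : Fin 3,
      ((KB (γ t) B).updateRow (p, s) (fun y => (v (y.1 - p) : ℂ) * B s y.2)).permanent.re) t

/-- `per (C ⊗ B) / (per C) ^ m` grows from `c` to `c'` -/
def Up (c c' : Fin 3 → ℝ) : Prop := ∀ (m : ℕ) (B : Matrix (Fin m) (Fin m) ℂ), B.PosSemidef →
  (KB c B).permanent.re * perc c' ^ m ≤ (KB c' B).permanent.re * perc c ^ m

/-- **pt:SG** one segment. Proof. `N t = Re per (KB (γ t) B)`, `q t = perc (γ t) > 0` on `[0, 1]`;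
`(N / q ^ m)' = (N' q - m N q') / q ^ (m+1) ≥ 0` on `(0, 1)` because `q' = dperc (γ t) (γ' t)`,
`N' = ∑ s, (∑ p, …)` and every `s` contributes at least `q' / q * N`. `N / q ^ m` is continuous on
`[0, 1]`, hence monotone (`monotoneOn_of_deriv_nonneg`). -/
def RowSG : Prop := RowEX → RowWK → RowLG2 → RowDV2 → ∀ (γ γ' : ℝ → Fin 3 → ℝ),
  ContinuousOn γ (Set.Icc 0 1) → (∀ t ∈ Set.Ioo (0 : ℝ) 1, HasDerivAt γ (γ' t) t) →
  (∀ t ∈ Set.Icc (0 : ℝ) 1, 0 < perc (γ t)) → (∀ t ∈ Set.Ioo (0 : ℝ) 1, LEGV (γ t) (γ' t)) →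
  Up (γ 0) (γ 1)

/-- **pt:FN** the end. Proof. `Up ![c0, c1, 0] ![1, 1, 1]` and the base inequality give
`(c0 ^ 3 + c1 ^ 3) ^ m * (Re per B) ^ 3 * 6 ^ m ≤ N_0 * 6 ^ m ≤ Re per (J_3 ⊗ B) * (c0 ^ 3 + c1 ^ 3) ^ m`;
cancel. `KB ![1, 1, 1] B` is `kron1 3 B`, and both permanents are real
(`helper80.LSZ.per_real`, `kron1_psd`). -/
def RowFN : Prop := ∀ c0 c1 : ℝ, 0 ≤ c0 → 0 ≤ c1 → 0 < c0 ^ 3 + c1 ^ 3 →
  Up ![c0, c1, 0] ![1, 1, 1] →
  (∀ (m : ℕ) (B : Matrix (Fin m) (Fin m) ℂ), B.PosSemidef → ∀ c0 c1 : ℝ, 0 ≤ c0 → 0 ≤ c1 →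
    (c0 ^ 3 + c1 ^ 3) ^ m * B.permanent.re ^ 3 ≤ (KB ![c0, c1, 0] B).permanent.re) →
  PateThree

theorem Up.trans {c c' c'' : Fin 3 → ℝ} (h : Up c c') (h' : Up c' c'') (p : 0 ≤ perc c)
    (p' : 0 < perc c') (p'' : 0 ≤ perc c'') : Up c c'' := by
  intro m B hB
  have h1 := h m B hB
  have h2 := h' m B hB
  have q : 0 < perc c' ^ m := by positivity
  have q1 : 0 ≤ perc c ^ m := by positivity
  have q2 : 0 ≤ perc c'' ^ m := by positivity
  have h3 := mul_le_mul_of_nonneg_right h1 q2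
  have h4 := mul_le_mul_of_nonneg_right h2 q1
  have h5 : (KB c B).permanent.re * perc c'' ^ m * perc c' ^ m ≤
      (KB c'' B).permanent.re * perc c ^ m * perc c' ^ m := by
    calc _ = (KB c B).permanent.re * perc c' ^ m * perc c'' ^ m := by ring
      _ ≤ (KB c' B).permanent.re * perc c ^ m * perc c'' ^ m := h3
      _ = (KB c' B).permanent.re * perc c'' ^ m * perc c ^ m := by ring
      _ ≤ (KB c'' B).permanent.re * perc c' ^ m * perc c ^ m := h4
      _ = _ := by ring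
  exact le_of_mul_le_mul_right h5 q

/-- everything together, for one segment -/
theorem pateThree_of2 (hEX : RowEX) (hWK : RowWK) (hLR : RowLR) (hWH : RowWH') (hTW : RowTW)
    (hLE : RowLE2) (hLG : RowLG2) (hDV : RowDV2) (hSG : RowSG) (hFN : RowFN)
    (hTR : RowTR) (hBL : RowBL) (hBA : RowBA) (γ γ' : ℝ → Fin 3 → ℝ)
    (hc : ContinuousOn γ (Set.Icc 0 1)) (hd : ∀ t ∈ Set.Ioo (0 : ℝ) 1, HasDerivAt γ (γ' t) t)
    (hp : ∀ t ∈ Set.Icc (0 : ℝ) 1, 0 < perc (γ t)) (hA : ∀ t ∈ Set.Ioo (0 : ℝ) 1, Adm (γ t))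
    (hC : ∀ t ∈ Set.Ioo (0 : ℝ) 1, CEV (γ t) (γ' t)) (c0 c1 : ℝ) (h0 : 0 ≤ c0) (h1 : 0 ≤ c1)
    (h01 : 0 < c0 ^ 3 + c1 ^ 3) (g0 : γ 0 = ![c0, c1, 0]) (g1 : γ 1 = ![1, 1, 1]) :
    PateThree := by
  refine hFN c0 c1 h0 h1 h01 ?_ (hBA hBL hTR)
  rw [← g0, ← g1]
  exact hSG hEX hWK hLG hDV γ γ' hc hd hp
    (fun t ht => hLE hWH hLR hTW (γ t) (γ' t) (hA t ht) (hC t ht))

end Pool.Agent.helper59.PT
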