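import Pool.Agent.helper59.PT.Rel
import Pool.Agent.helper55.PT.EX
import Pool.Agent.helper65.PT.WK
import Pool.Agent.helper57.PT.RO
import Pool.Agent.helper88.PT.RE
import Pool.Agent.helper28.PT.LR
import Pool.Agent.helper48.PT.TP
import Pool.Agent.helper94.PT.RP
import Pool.Agent.helper83.PT.TW
import Pool.Agent.helper95.PT.WHp
import Pool.Agent.helper52.PT.LE
import Pool.Agent.helper37.PT.LG
import Pool.Agent.helper6.PT.DV
import Pool.Agent.helper13.PT.SG
import Pool.Agent.helper59.PT.BLf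
import Pool.Agent.helper74.PT.BA
import Pool.Agent.helper94.PT.TR

set_option linter.all false
set_option autoImplicit false

/-!
# Pate's inequality for three copies and matrices of every size: assembly (MP_2dd521_co)

The path is `γ t = cr (3/4) (1 - t)`, `0 ≤ t ≤ 1`, from `![9/4, 3/4, 0]` to `![1, 1, 1]`.
-/

namespace Pool.Agent.helper59.PT

open MvPolynomial
open scoped ComplexConjugate ComplexOrder

/-- the direction of the path -/
noncomputable def vdir : Fin 3 → ℝ := ![-5/4, 1/4, 1]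

theorem cr0 (r : ℝ) : cr (3/4) r 0 = 1 + r * (2 - 3/4) := rfl
theorem cr1 (r : ℝ) : cr (3/4) r 1 = 1 + r * (3/4 - 1) := rfl
theorem cr2 (r : ℝ) : cr (3/4) r 2 = 1 - r := rfl

theorem cr_deriv (t : ℝ) : HasDerivAt (fun t => cr (3/4) (1 - t)) vdir t := by
  have h0 : HasDerivAt (fun t : ℝ => 1 - t) (-1) t := by
    simpa using (hasDerivAt_id t).const_sub 1
  rw [hasDerivAt_pi]
  intro i
  fin_cases i
  · have h := (h0.mul_const (2 - 3/4 : ℝ)).const_add 1
    refine h.congr_deriv ?_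
    show (-1 : ℝ) * (2 - 3/4) = -5/4
    norm_num
  · have h := (h0.mul_const (3/4 - 1 : ℝ)).const_add 1
    refine h.congr_deriv ?_
    show (-1 : ℝ) * (3/4 - 1) = 1/4
    norm_num
  · have h := h0.const_sub 1
    refine h.congr_deriv ?_
    show -(-1 : ℝ) = 1
    norm_num

theorem cr_end0 : cr (3/4) (1 - 0) = ![9/4, 3/4, 0] := by
  funext i
  fin_cases i
  · show 1 + (1 - 0 : ℝ) * (2 - 3/4) = 9/4
    norm_num
  · show 1 + (1 - 0 : ℝ) * (3/4 - 1) = 3/4
    norm_num
  · show 1 - (1 - 0 : ℝ) = 0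
    norm_num

theorem cr_end1 : cr (3/4) (1 - 1) = ![1, 1, 1] := by
  funext i
  fin_cases i
  · show 1 + (1 - 1 : ℝ) * (2 - 3/4) = 1
    norm_num
  · show 1 + (1 - 1 : ℝ) * (3/4 - 1) = 1
    norm_num
  · show 1 - (1 - 1 : ℝ) = 1
    norm_num

/-- Pate's inequality for three copies from the certificate -/
theorem pateThree_of_CE (hCE : CE (3/4)) : PateThree := by
  refine pateThree_of2 Pool.Agent.helper55.PT.rowEX Pool.Agent.helper65.PT.rowWK
    (rowLR Pool.Agent.helper57.PT.rowRO Pool.Agent.helper88.PT.rowRE)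
    Pool.Agent.helper95.PTWH.rowWH'
    (Pool.Agent.helper83.PTW.rowTW (Pool.Agent.helper94.PT.rowRP Pool.Agent.helper48.PT.rowTP))
    Pool.Agent.helper52.PTLE.rowLE2 Pool.Agent.helper37.PT.rowLG2 Pool.Agent.helper6.PT.rowDV2
    Pool.Agent.helper13.PT.rowSG Pool.Agent.helper13.PT.rowFN Pool.Agent.helper94.PT.rowTR
    Pool.Agent.helper59.PTBL.rowBL Pool.Agent.helper74.PT.rowBA
    (fun t => cr (3/4) (1 - t)) (fun _ => vdir)
    (fun t _ => (cr_deriv t).continuousAt.continuousWithinAt) (fun t _ => cr_deriv t)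
    ?_ ?_ ?_ (9/4) (3/4) (by norm_num) (by norm_num) (by norm_num) cr_end0 cr_end1
  · rintro t ⟨h0, h1⟩
    show 0 < cr (3/4) (1 - t) 0 ^ 3 + cr (3/4) (1 - t) 1 ^ 3 + cr (3/4) (1 - t) 2 ^ 3 +
      3 * cr (3/4) (1 - t) 0 * cr (3/4) (1 - t) 1 * cr (3/4) (1 - t) 2
    have a0 : 0 < cr (3/4) (1 - t) 0 := by rw [cr0]; nlinarith
    have a1 : 0 < cr (3/4) (1 - t) 1 := by rw [cr1]; nlinarith
    have a2 : 0 ≤ cr (3/4) (1 - t) 2 := by rw [cr2]; linarith
    positivity
  · rintro t ⟨h0, h1⟩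
    refine ⟨fun j => ?_, ?_⟩
    · fin_cases j
      · show 0 ≤ cr (3/4) (1 - t) 0
        rw [cr0]; nlinarith
      · show 0 ≤ cr (3/4) (1 - t) 1
        rw [cr1]; nlinarith
      · show 0 ≤ cr (3/4) (1 - t) 2
        rw [cr2]; linarith
    · show cr (3/4) (1 - t) 2 ^ 2 ≤ cr (3/4) (1 - t) 0 * cr (3/4) (1 - t) 1
      rw [cr0, cr1, cr2]
      nlinarith
  · rintro t ⟨h0, h1⟩
    refine CEV_of_HP (cr (3/4) (1 - t)) vdir (1 - t) (by linarith) ?_ ?_
      (hCE (1 - t) (by linarith) (by linarith))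
    · rw [cr0, cr1, cr2]; ring
    · intro i
      fin_cases i
      · show (1 - t) * (-5/4 : ℝ) = 1 - (1 + (1 - t) * (2 - 3/4))
        ring
      · show (1 - t) * (1/4 : ℝ) = 1 - (1 + (1 - t) * (3/4 - 1))
        ring
      · show (1 - t) * (1 : ℝ) = 1 - (1 - (1 - t))
        ring

end Pool.Agent.helper59.PT
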