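import Pool.Agent.helper59.PT.Spec2

set_option linter.all false
set_option autoImplicit false

namespace Pool.Agent.helper59.PT

open MvPolynomial

section
variable {R : Type} [CommRing R] (M : Fin 3 → Fin 3 → R) (l r : Fin 3 → R)

theorem Wd_n (v : List (Fin 3)) : Wd M l r [] v = (v.map r).prod := rfl

theorem Wd_c0 (i : Fin 3) (u : List (Fin 3)) :
    Wd M l r (i :: u) [] = l i * Wd M l r u [] := by
  show l i * Wd M l r u [] + ∑ k : Fin 0, _ = _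
  simp

theorem Wd_c1 (i : Fin 3) (u : List (Fin 3)) (a : Fin 3) :
    Wd M l r (i :: u) [a] = l i * Wd M l r u [a] + M i a * Wd M l r u [] := by
  show l i * Wd M l r u [a] + ∑ k : Fin 1, M i ([a].get k) * Wd M l r u ([a].eraseIdx k) = _
  rw [Fin.sum_univ_one]; rfl

theorem Wd_c2 (i : Fin 3) (u : List (Fin 3)) (a b : Fin 3) :
    Wd M l r (i :: u) [a, b] = l i * Wd M l r u [a, b] +
      (M i a * Wd M l r u [b] + M i b * Wd M l r u [a]) := by
  show l i * Wd M l r u [a, b] + ∑ k : Fin 2, M i ([a, b].get k) * Wd M l r u ([a, b].eraseIdx k) = _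
  rw [Fin.sum_univ_two]; rfl

theorem Wd_c3 (i : Fin 3) (u : List (Fin 3)) (a b c : Fin 3) :
    Wd M l r (i :: u) [a, b, c] = l i * Wd M l r u [a, b, c] +
      (M i a * Wd M l r u [b, c] + M i b * Wd M l r u [a, c] + M i c * Wd M l r u [a, b]) := by
  show l i * Wd M l r u [a, b, c] +
    ∑ k : Fin 3, M i ([a, b, c].get k) * Wd M l r u ([a, b, c].eraseIdx k) = _
  rw [Fin.sum_univ_three]; rfl

theorem Wd_swap0 (i j : Fin 3) (u : List (Fin 3)) :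
    Wd M l r (i :: j :: u) [] = Wd M l r (j :: i :: u) [] := by
  simp only [Wd_c0]; ring

theorem Wd_swap1 (i j : Fin 3) (u : List (Fin 3)) (a : Fin 3) :
    Wd M l r (i :: j :: u) [a] = Wd M l r (j :: i :: u) [a] := by
  simp only [Wd_c0, Wd_c1]; ring

theorem Wd_swap2 (i j : Fin 3) (u : List (Fin 3)) (a b : Fin 3) :
    Wd M l r (i :: j :: u) [a, b] = Wd M l r (j :: i :: u) [a, b] := by
  simp only [Wd_c0, Wd_c1, Wd_c2]; ring

theorem Wd_swap3 (i j : Fin 3) (u : List (Fin 3)) (a b c : Fin 3) :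
    Wd M l r (i :: j :: u) [a, b, c] = Wd M l r (j :: i :: u) [a, b, c] := by
  simp only [Wd_c0, Wd_c1, Wd_c2, Wd_c3]; ring

theorem Wd_rot3 (i j k : Fin 3) (a b c : Fin 3) :
    Wd M l r [j, k, i] [a, b, c] = Wd M l r [i, j, k] [a, b, c] := by
  simp only [Wd_c0, Wd_c1, Wd_c2, Wd_c3, Wd_n, List.map_cons, List.map_nil, List.prod_cons, List.prod_nil]; ring

end

theorem C3 : (C 3 : Sy) = 3 := by
  rw [show (3 : ℝ) = 1 + 1 + 1 by norm_num, C_add, C_add, C_1]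
  norm_num

/-- the sum of the entries of a row -/
theorem PV_eq (c v : Fin 3 → ℝ) : PV c v = ∑ p : Fin 3,
    ((∑ q : Fin 3, C (v (q - p)) * X (Sum.inr q)) * WH c [p + 1, p + 2] [0, 1, 2] +
    (C (v (0 - p)) * WH c [p + 1, p + 2] [1, 2] + C (v (1 - p)) * WH c [p + 1, p + 2] [0, 2] +
      C (v (2 - p)) * WH c [p + 1, p + 2] [0, 1])) := by
  unfold PV
  refine Finset.sum_congr rfl fun p _ => ?_
  congr 1
  rw [Fin.sum_univ_three]
  rfl

theorem WH_c3 (c : Fin 3 → ℝ) (i : Fin 3) (u : List (Fin 3)) (a b d : Fin 3) :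
    WH c (i :: u) [a, b, d] = (∑ q, C (circ c i q) * X (Sum.inr q)) * WH c u [a, b, d] +
      (C (circ c i a) * WH c u [b, d] + C (circ c i b) * WH c u [a, d] +
        C (circ c i d) * WH c u [a, b]) := by
  unfold WH
  rw [Wd_c3]

theorem PV_self (c : Fin 3 → ℝ) : PV c c = 3 * P2 c := by
  have h : ∀ p : Fin 3, (∑ q : Fin 3, C (c (q - p)) * X (Sum.inr q)) *
      WH c [p + 1, p + 2] [0, 1, 2] +
      (C (c (0 - p)) * WH c [p + 1, p + 2] [1, 2] + C (c (1 - p)) * WH c [p + 1, p + 2] [0, 2] +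
      C (c (2 - p)) * WH c [p + 1, p + 2] [0, 1]) = WH c [p, p + 1, p + 2] [0, 1, 2] := by
    intro p
    exact (WH_c3 c p [p + 1, p + 2] 0 1 2).symm
  rw [PV_eq, Finset.sum_congr rfl fun p _ => h p, Fin.sum_univ_three]
  have h1 : WH c [1, 1 + 1, 1 + 2] [0, 1, 2] = WH c [0, 1, 2] [0, 1, 2] :=
    Wd_rot3 _ _ _ 0 1 2 0 1 2
  have h2 : WH c [2, 2 + 1, 2 + 2] [0, 1, 2] = WH c [0, 1, 2] [0, 1, 2] :=
    (Wd_rot3 _ _ _ 1 2 0 0 1 2).trans (Wd_rot3 _ _ _ 0 1 2 0 1 2)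
  have h0 : WH c [0, 0 + 1, 0 + 2] [0, 1, 2] = WH c [0, 1, 2] [0, 1, 2] := rfl
  rw [h0, h1, h2]
  unfold P2
  ring

theorem P1_eq (c : Fin 3 → ℝ) (hc : c 0 + c 1 + c 2 = 3) :
    P1 c = 3 * PV c (fun _ => 1) := by
  have hs : ∀ q : Fin 3, (C (circ c 0 q) + C (circ c 1 q) + C (circ c 2 q) : Sy) = 3 := by
    intro q
    have : circ c 0 q + circ c 1 q + circ c 2 q = 3 := by
      fin_cases q
      · show c 0 + c 2 + c 1 = 3
        linarith
      · show c 1 + c 0 + c 2 = 3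
        linarith
      · show c 2 + c 1 + c 0 = 3
        linarith
    rw [← C_add, ← C_add, this, C3]
  have key : ∀ u : List (Fin 3), ∑ i : Fin 3, WH c (i :: u) [0, 1, 2] =
      3 * ((∑ q : Fin 3, X (Sum.inr q)) * WH c u [0, 1, 2] +
        (WH c u [1, 2] + WH c u [0, 2] + WH c u [0, 1])) := by
    intro u
    rw [Fin.sum_univ_three, WH_c3, WH_c3, WH_c3]
    simp only [Fin.sum_univ_three]
    have h0 := hs 0
    have h1 := hs 1
    have h2 := hs 2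
    linear_combination (X (Sum.inr 0) * WH c u [0, 1, 2] + WH c u [1, 2]) * h0 +
      (X (Sum.inr 1) * WH c u [0, 1, 2] + WH c u [0, 2]) * h1 +
      (X (Sum.inr 2) * WH c u [0, 1, 2] + WH c u [0, 1]) * h2
  have e1 : P1 c = ∑ i : Fin 3, WH c (i :: [0, 1]) [0, 1, 2] +
      ∑ i : Fin 3, WH c (i :: [0, 2]) [0, 1, 2] + ∑ i : Fin 3, WH c (i :: [1, 2]) [0, 1, 2] := by
    unfold P1
    rw [← Finset.sum_add_distrib, ← Finset.sum_add_distrib]
  rw [e1, key, key, key, PV_eq]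
  simp only [Fin.sum_univ_three, C_1, one_mul]
  have s3 : WH c [2, 0] [0, 1, 2] = WH c [0, 2] [0, 1, 2] := Wd_swap3 _ _ _ 2 0 [] 0 1 2
  have s2 : ∀ a b, WH c [2, 0] [a, b] = WH c [0, 2] [a, b] := fun a b => Wd_swap2 _ _ _ 2 0 [] a b
  have a0 : ∀ v, WH c [0 + 1, 0 + 2] v = WH c [1, 2] v := fun v => rfl
  have a1 : ∀ v, WH c [1 + 1, 1 + 2] v = WH c [2, 0] v := fun v => rfl
  have a2 : ∀ v, WH c [2 + 1, 2 + 2] v = WH c [0, 1] v := fun v => rfl
  rw [a0, a0, a0, a0, a1, a1, a1, a1, a2, a2, a2, a2, s3, s2, s2, s2]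
  ring

theorem PV_lin (c v w : Fin 3 → ℝ) (t : ℝ) (h : ∀ i, t * w i = 1 - v i) :
    C t * PV c w = PV c (fun _ => 1) - PV c v := by
  have h' : ∀ i, C (v i) = (1 - C t * C (w i) : Sy) := by
    intro i
    rw [← C_mul, h i, C_sub, C_1]
    ring
  rw [PV_eq, PV_eq, PV_eq]
  simp only [h', C_1, Fin.sum_univ_three]
  ring

theorem dperc_eq (c w : Fin 3 → ℝ) (t : ℝ) (h : ∀ i, t * w i = 1 - c i) :
    t * dperc c w = n9 c / 3 - 3 * perc c := by
  unfold dperc n9 perc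
  linear_combination (3 * c 0 ^ 2 + 3 * c 1 * c 2) * h 0 + (3 * c 1 ^ 2 + 3 * c 0 * c 2) * h 1 +
    (3 * c 2 ^ 2 + 3 * c 0 * c 1) * h 2

theorem HPV_HP (c w : Fin 3 → ℝ) (t : ℝ) (hc : c 0 + c 1 + c 2 = 3)
    (h : ∀ i, t * w i = 1 - c i) : C (3 * t) * HPV c w = HP c := by
  have h1 := PV_lin c c w t h
  have h2 := congrArg (C : ℝ → Sy) (dperc_eq c w t h)
  have h3 := P1_eq c hc
  have h4 := PV_self c
  unfold HPV HP
  have e3 : (C (3 * t) : Sy) = 3 * C t := by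
    rw [C_mul, C3]
  have e9 : (C (n9 c / 3) : Sy) * 3 = C (n9 c) := by
    rw [← C3, ← C_mul]
    congr 1
    ring
  have e2 : (C t * C (dperc c w) : Sy) = C (n9 c / 3) - 3 * C (perc c) := by
    rw [← C_mul, h2, C_sub, C_mul, C3]
  rw [e3, h3]
  linear_combination 3 * C (perc c) * h1 - 3 * C (perc c) * h4 - 3 * P2 c * e2 - P2 c * e9

theorem CEV_of_HP (c w : Fin 3 → ℝ) (t : ℝ) (ht : 0 < t) (hc : c 0 + c 1 + c 2 = 3)
    (h : ∀ i, t * w i = 1 - c i) (hΛ : ∀ Λ : Sy →ₗ[ℝ] ℝ, IsRing c Λ → 0 ≤ Λ (HP c)) :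
    CEV c w := by
  intro Λ hr
  have h1 := hΛ Λ hr
  rw [← HPV_HP c w t hc h, ← smul_eq_C_mul, map_smul, smul_eq_mul] at h1
  exact nonneg_of_mul_nonneg_right h1 (by positivity)

end Pool.Agent.helper59.PT
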