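import Pool.Agent.helper80.LSZ.Pate

set_option linter.all false
set_option autoImplicit false

/-!
# Pate's inequality for three copies and matrices of every size: the plan (MP_2dd521_co)

Target (`PateThree`): `6 ^ m * (per B) ^ 3 ≤ per (J_3 ⊗ B)` for every complex positive semidefinite
`m × m` matrix `B`.

The proof moves along `C r = circ (cr a r)`, `cr a r = (1 + r (2-a), 1 + r (a-1), 1 - r)`: at `r = 0`
this is `J_3`; at `r = 1` the entry `c 2` vanishes and `per (C ⊗ B)` is a sum of traces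
`Tr ((X * Y) ^ 3)` of positive semidefinite matrices (`RowBA`); in between
`per (C r ⊗ B) / (per C r) ^ m` does not increase in `r` (`RowAS`), because of an inequality for
each row of `B` (`LEG`), which follows from the positivity of the functional `L` under the
reflection `θ : x_1 ↔ y_1, x_2 ↔ y_0, y_2 ↔ x_0` (`RowRP`, `RowTW`) and a polynomial identity (`CE`).

Every `Row…` below is a `def … : Prop`; to do a row is to prove a theorem of that type in a file
of your own (`theorem rowXX : Pool.Agent.helper59.PT.RowXX := …`).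
-/

namespace Pool.Agent.helper59.PT

open MvPolynomial
open scoped ComplexConjugate ComplexOrder

/-! ## A. Gaussian functionals on polynomials -/

/-- `L` is the Gaussian functional with covariance `K`: `L 1 = 1` and
`L (X v * Q) = ∑ w, K v w * L (∂_w Q)`. -/
structure IsG {V : Type} [Fintype V] (K : V → V → ℂ) (L : MvPolynomial V ℂ →ₗ[ℂ] ℂ) : Prop where
  one : L 1 = 1
  step : ∀ (v : V) (Q : MvPolynomial V ℂ), L (X v * Q) = ∑ w, K v w * L (pderiv w Q)

/-- **pt:EX** existence.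
Proof. Take `I = V × V` and the algebra map `φ : MvPolynomial V ℂ → MvPolynomial (I ⊕ I) ℂ`,
`φ (X v) = ∑ i, (C (α v i) * X (inl i) + C (β v i) * X (inr i))` with
`α v (a, b) = if v = a then K a b / 2 else 0`, `β v (a, b) = if v = b then 1 else 0`, so that
`∑ i, (α v i * β w i + β v i * α w i) = K v w / 2 + K w v / 2 = K v w`.
Let `G0 : MvPolynomial (I ⊕ I) ℂ →ₗ[ℂ] ℂ` be given on monomials by `G0 (monomial n c) =
c * ∏ i, if n (inl i) = n (inr i) then (n (inl i))! else 0` (`basisMonomials.constr`; or use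
`helper80.LSZ.E` and `E_mono`). Check on monomials `G0 (X (inl i) * Q) = G0 (pderiv (inr i) Q)` and
`G0 (X (inr i) * Q) = G0 (pderiv (inl i) Q)`. With the chain rule `pderiv (inl i) (φ Q) =
∑ w, C (α w i) * φ (pderiv w Q)` (and the same for `inr`, `β`; by `MvPolynomial.induction_on`)
one gets `IsG K (G0 ∘ φ)`. -/
def RowEX : Prop := ∀ (V : Type) [Fintype V] [DecidableEq V] (K : V → V → ℂ),
  (∀ v w, K v w = K w v) → ∃ L : MvPolynomial V ℂ →ₗ[ℂ] ℂ, IsG K L

/-- **pt:UN** uniqueness.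
Proof. Both functionals agree on all monomials, by strong induction on the degree: a monomial of
positive degree is `X v * Q` with `Q` a monomial of smaller degree and the `pderiv w Q` are
multiples of monomials of still smaller degree. -/
def RowUN : Prop := ∀ (V : Type) [Fintype V] [DecidableEq V] (K : V → V → ℂ)
  (L L' : MvPolynomial V ℂ →ₗ[ℂ] ℂ), IsG K L → IsG K L' → L = L'

/-- **pt:WK** Wick's formula.
Proof. Induction on the number `n` of factors with the Laplace expansion of the permanent along the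
first row (`helper16.LSZ.laplace`, or directly from `Equiv.Perm.decomposeFin`): with
`α_s = ∑ v, C (α s v) * X v`, `step` gives `L (α_0 * Q) = ∑ v w, α 0 v * K v w * L (∂_w Q)`, and
`∂_w` is a derivation with `∂_w α_s = C (α s w)`, `∂_w β_t = C (β t w)`; the contractions of
`α_0` with the other `α_s` vanish by the hypothesis. (For `n = 0` use `one`: when all `α`s are
gone there is no `β` left.) State the induction for `Fin n` (or for two lists); transport to a
finite type `S` along `S ≃ Fin n` (`helper16.LSZ.permanent_submatrix_equiv`). -/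
def RowWK : Prop := ∀ (V : Type) [Fintype V] [DecidableEq V] (K : V → V → ℂ)
  (L : MvPolynomial V ℂ →ₗ[ℂ] ℂ), IsG K L → ∀ (S : Type) [Fintype S] [DecidableEq S]
  (α β : S → V → ℂ), (∀ s s', ∑ v, ∑ w, α s v * K v w * α s' w = 0) →
  L ((∏ s, ∑ v, C (α s v) * X v) * ∏ t, ∑ v, C (β t v) * X v) =
    (Matrix.of fun s t => ∑ v, ∑ w, α s v * K v w * β t w).permanent

/-- the covariance of a reflected pair: `W` inside, its conjugate inside the mirror image, `M`
across -/
def KT {V : Type} (W : V → V → ℂ) (M : Matrix V V ℂ) : V ⊕ V → V ⊕ V → ℂ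
  | Sum.inl v, Sum.inl w => W v w
  | Sum.inr v, Sum.inr w => conj (W v w)
  | Sum.inl v, Sum.inr w => M v w
  | Sum.inr v, Sum.inl w => M w v

/-- **pt:TP** positivity under reflection, general form.
Proof. Factor `M v w = ∑ j : V, m v j * conj (m w j)` (`helper80.LSZ.exists_fac` or
`helper16.LSZ.exists_factor`). Let `ip` be the Fock inner product of `helper16/LSZ/F1.lean` on
`MvPolynomial V ℂ` (`ip_X : ip (X a * p) q = ip p (pderiv a q)`, `ip_symm`, `nr_nonneg`). There is a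
linear map `U : MvPolynomial V ℂ → MvPolynomial V ℂ` with `U 1 = 1`,
`U (X v * Q) = (∑ j, C (m v j) * X j) * U Q + ∑ w, C (W v w) * U (∂_w Q)`:
it is the composition of `Q ↦ E (Q (X + n))` (`n` Gaussian with covariance `W`) and the substitution
`X v ↦ ∑ j, C (m v j) * X j`. To construct it use the functional `L_W` of `RowEX` for `W` on
coefficients: `U Q = (id ⊗ L_W) (Q (∑ j, m v j X_j ⊗ 1 + 1 ⊗ X_v))`; in Lean, the value of `U` on a
monomial can be defined as a finite sum; or repeat the proof of `RowEX` over the coefficient ring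
`MvPolynomial V ℂ`. By induction `pderiv j (U Q) = ∑ v, C (m v j) * U (∂_v Q)`. Then
`L (rename inl Q * rename inr (map conj P)) = ip (U P) (U Q)`: both sides, as functions of `Q`, have
the value for `Q = X v * Q'` given by
`∑ w, W v w (∂_w Q', P) + ∑ w, M v w (Q', ∂_w P)`; for `Q = 1` use the same
recursion in `P`. With `P = Q = u` the right side is a squared norm. -/
def RowTP : Prop := ∀ (V : Type) [Fintype V] [DecidableEq V] (W : V → V → ℂ) (M : Matrix V V ℂ),
  (∀ v w, W v w = W w v) → M.PosSemidef → ∀ L : MvPolynomial (V ⊕ V) ℂ →ₗ[ℂ] ℂ, IsG (KT W M) L →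
  ∀ u : MvPolynomial V ℂ,
    0 ≤ (L (rename Sum.inl u * rename Sum.inr (map (starRingEnd ℂ) u))).re

/-! ## B. The ring of three kets and three bras -/

/-- slots: `inl p` is the ket `x_p`, `inr q` is the bra `y_q` -/
abbrev Sl := Fin 3 ⊕ Fin 3

/-- the circulant matrix -/
def circ (c : Fin 3 → ℝ) (p q : Fin 3) : ℝ := c (q - p)

/-- covariance of the variables `(slot, coordinate)` -/
def KC {ι : Type} [DecidableEq ι] (c : Fin 3 → ℝ) : Sl × ι → Sl × ι → ℂ
  | (Sum.inl p, a), (Sum.inr q, b) => if a = b then (circ c p q : ℂ) else 0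
  | (Sum.inr q, a), (Sum.inl p, b) => if a = b then (circ c p q : ℂ) else 0
  | (Sum.inl _, _), (Sum.inl _, _) => 0
  | (Sum.inr _, _), (Sum.inr _, _) => 0

/-- rotation of the slots -/
def rotS : Sl → Sl
  | Sum.inl p => Sum.inl (p + 1)
  | Sum.inr q => Sum.inr (q + 1)

/-- reflection of the slots: `x_1 ↔ y_1`, `x_2 ↔ y_0`, `x_0 ↔ y_2` -/
def thS : Sl → Sl
  | Sum.inl p => Sum.inr (2 - p)
  | Sum.inr q => Sum.inl (2 - q)

/-- the half of the ring: `x_1, x_2, y_2` -/
def ltS : Fin 3 → Sl := ![Sum.inl 1, Sum.inl 2, Sum.inr 2]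

/-- the matrix of the contractions between the half and its mirror image -/
def Mc (c : Fin 3 → ℝ) : Fin 3 → Fin 3 → ℝ := ![![c 0, c 2, 0], ![c 2, c 1, 0], ![0, 0, c 2]]

/-- the admissible circulants -/
def Adm (c : Fin 3 → ℝ) : Prop := (∀ j, 0 ≤ c j) ∧ c 2 ^ 2 ≤ c 0 * c 1

section ring

variable {ι : Type}

/-- place a polynomial in a slot -/
noncomputable def pl (σ : Sl) (F : MvPolynomial ι ℂ) : MvPolynomial (Sl × ι) ℂ :=
  rename (Prod.mk σ) F

/-- complex conjugation of the coefficients -/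
noncomputable def cj {V : Type} (F : MvPolynomial V ℂ) : MvPolynomial V ℂ := map (starRingEnd ℂ) F

/-- the derivative in the direction of the leg `e`: `∑ a, conj (e a) ∂_a` -/
noncomputable def dE [Fintype ι] (e : ι → ℂ) (F : MvPolynomial ι ℂ) : MvPolynomial ι ℂ :=
  ∑ a, C (conj (e a)) * pderiv a F

/-- the product of the derivatives of `F` in the kets and of `conj F` in the bras -/
noncomputable def GM [Fintype ι] (e : ι → ℂ) (F : MvPolynomial ι ℂ) (a b : Fin 3 → ℕ) :
    MvPolynomial (Sl × ι) ℂ :=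
  (∏ p, pl (Sum.inl p) ((dE e)^[a p] F)) * ∏ q, pl (Sum.inr q) (cj ((dE e)^[b q] F))

/-- the leg in the ket `x_p` -/
noncomputable def xi [Fintype ι] (e : ι → ℂ) (p : Fin 3) : MvPolynomial (Sl × ι) ℂ :=
  ∑ a, C (e a) * X (Sum.inl p, a)

/-- the leg in the bra `y_q` -/
noncomputable def eta [Fintype ι] (e : ι → ℂ) (q : Fin 3) : MvPolynomial (Sl × ι) ℂ :=
  ∑ a, C (conj (e a)) * X (Sum.inr q, a)

/-- **pt:RO** invariance under the rotation. Proof: `L ∘ rename` satisfies `IsG` for the same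
covariance (`circ c (p+1) (q+1) = circ c p q`); `RowUN`. -/
def RowRO : Prop := ∀ (ι : Type) [Fintype ι] [DecidableEq ι] (c : Fin 3 → ℝ)
  (L : MvPolynomial (Sl × ι) ℂ →ₗ[ℂ] ℂ), IsG (KC c) L →
  ∀ Q : MvPolynomial (Sl × ι) ℂ, L (rename (fun v : Sl × ι => (rotS v.1, v.2)) Q) = L Q

/-- **pt:RE** invariance under the reflection. Proof: `Q ↦ conj (L (rename θ (cj Q)))` is linear and
satisfies `IsG` for the same covariance (`circ c (2-q) (2-p) = circ c p q`); `RowUN`. -/
def RowRE : Prop := ∀ (ι : Type) [Fintype ι] [DecidableEq ι] (c : Fin 3 → ℝ)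
  (L : MvPolynomial (Sl × ι) ℂ →ₗ[ℂ] ℂ), IsG (KC c) L →
  ∀ Q : MvPolynomial (Sl × ι) ℂ,
    L (rename (fun v : Sl × ι => (thS v.1, v.2)) (cj Q)) = conj (L Q)

/-- **pt:RP** positivity of the ring under the reflection.
Proof. From `RowTP` with `V = Fin 3 × ι`, `M (i, a) (j, b) = if a = b then Mc c i j else 0`
(positive semidefinite by `Adm`), `W` the contractions inside the half, i.e.
`W (0, a) (2, a) = W (2, a) (0, a) = c 1`, `W (1, a) (2, a) = W (2, a) (1, a) = c 0`, all other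
entries `0`. The functional `L ∘ rename g` with `g : V ⊕ V ≃ Sl × ι`,
`g (inl (i, a)) = (ltS i, a)`, `g (inr (i, a)) = (thS (ltS i), a)` satisfies `IsG (KT W M)`. -/
def RowRP : Prop := ∀ (ι : Type) [Fintype ι] [DecidableEq ι] (c : Fin 3 → ℝ), Adm c →
  ∀ (L : MvPolynomial (Sl × ι) ℂ →ₗ[ℂ] ℂ), IsG (KC c) L →
  ∀ u : MvPolynomial (Fin 3 × ι) ℂ,
    0 ≤ (L (rename (fun v : Fin 3 × ι => (ltS v.1, v.2)) u *
      rename (fun v : Fin 3 × ι => (thS (ltS v.1), v.2)) (cj u))).re

end ring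

/-! ## C. The symbol calculus -/

/-- the polynomials in the symbols `d p = X (inl p)` and `D q = X (inr q)` -/
abbrev Sy := MvPolynomial Sl ℝ

/-- the symbol functional: the monomial with exponents `n` is sent to the real part of
`L (GM e F (n ∘ inl) (n ∘ inr))` -/
noncomputable def Lam {ι : Type} [Fintype ι] (L : MvPolynomial (Sl × ι) ℂ →ₗ[ℂ] ℂ) (e : ι → ℂ)
    (F : MvPolynomial ι ℂ) : Sy →ₗ[ℝ] ℝ :=
  (basisMonomials Sl ℝ).constr ℝ fun n =>
    (L (GM e F (fun p => n (Sum.inl p)) (fun q => n (Sum.inr q)))).re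

/-- Wick's formula for two words: the letters of the word `u` have symbols `l`, those of `v` have
symbols `r`, and the letter `i` of `u` contracts with the letter `j` of `v` to `M i j`. -/
def Wd {R : Type} [CommRing R] {n : ℕ} (M : Fin n → Fin n → R) (l r : Fin n → R) :
    List (Fin n) → List (Fin n) → R
  | [], v => (v.map r).prod
  | i :: u, v => l i * Wd M l r u v +
      ∑ k : Fin v.length, M i (v.get k) * Wd M l r u (v.eraseIdx k)

/-- the words in the legs `ξ_p`, `η_q` -/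
noncomputable def WH (c : Fin 3 → ℝ) : List (Fin 3) → List (Fin 3) → Sy :=
  Wd (fun p q => C (circ c p q)) (fun p => ∑ q, C (circ c p q) * X (Sum.inr q))
    (fun q => ∑ p, C (circ c p q) * X (Sum.inl p))

/-- the words in the creation operators of the half ring -/
noncomputable def WT (c : Fin 3 → ℝ) : List (Fin 3) → List (Fin 3) → Sy :=
  Wd (fun i j => C (Mc c i j)) (fun i => ∑ j, C (Mc c i j) * X (ltS j))
    (fun j => ∑ i, C (Mc c i j) * X (thS (ltS i)))

/-- what is known of the symbol functional of the ring with circulant `c` -/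
structure IsRing (c : Fin 3 → ℝ) (Λ : Sy →ₗ[ℝ] ℝ) : Prop where
  rot : ∀ A : Sy, Λ (rename rotS A) = Λ A
  ref : ∀ A : Sy, Λ (rename thS A) = Λ A
  pos : ∀ (n : ℕ) (w : Fin n → List (Fin 3)) (A : Fin n → MvPolynomial (Fin 3) ℝ),
    0 ≤ Λ (∑ i, ∑ j, rename thS (rename ltS (A i)) * rename ltS (A j) * WT c (w i) (w j))

/-- **pt:LR** rotation and reflection invariance of the symbol functional, from `RowRO`, `RowRE`:
`rename (rotS, id) (GM e F a b) = GM e F (a ∘ (· - 1)) (b ∘ (· - 1))` and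
`rename (thS, id) (cj (GM e F a b)) = GM e F (b ∘ (2 - ·)) (a ∘ (2 - ·))`; check the claim on
monomials. -/
def RowLR : Prop := ∀ (ι : Type) [Fintype ι] [DecidableEq ι] (c : Fin 3 → ℝ)
  (L : MvPolynomial (Sl × ι) ℂ →ₗ[ℂ] ℂ), IsG (KC c) L → ∀ (e : ι → ℂ) (F : MvPolynomial ι ℂ),
  (∀ A : Sy, Lam L e F (rename rotS A) = Lam L e F A) ∧
  (∀ A : Sy, Lam L e F (rename thS A) = Lam L e F A)

/-- **pt:WH** words in the legs.
Proof. By `step`, `L (xi p * Q) = ∑ q, circ c p q * L (D_q Q)` with the derivation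
`D_q = ∑ a, C (e a) * pderiv (inr q, a)`; it sends `eta q'` to `if q = q' then 1 else 0` (as
`∑ a, e a * conj (e a) = 1`), kills every `xi p'`, and sends `GM e F a b` to `GM e F a (b + δ_q)`
(Leibniz rule; `pderiv a (cj F) = cj (pderiv a F)`). Induction on `w` for all `w'` and all `a b`
gives the claim with `GM e F a b` on the left and the monomial of exponents `(a, b)` times
`WH c w w'` on the right; for `w = []` induct on `w'` in the same way with
`L (eta q * Q) = ∑ p, circ c p q * L (d_p Q)`, `d_p = ∑ a, C (conj (e a)) * pderiv (inl p, a)`. -/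
def RowWH : Prop := ∀ (ι : Type) [Fintype ι] [DecidableEq ι] (c : Fin 3 → ℝ)
  (L : MvPolynomial (Sl × ι) ℂ →ₗ[ℂ] ℂ), IsG (KC c) L → ∀ (e : ι → ℂ) (F : MvPolynomial ι ℂ),
  ∑ a, e a * conj (e a) = 1 → ∀ w w' : List (Fin 3),
  (L ((w.map (xi e)).prod * (w'.map (eta e)).prod * GM e F 0 0)).re = Lam L e F (WH c w w')

/-- **pt:TW** positivity of the symbol functional.
Proof. Put `Φ α = dE^[α 0] F (x_1) * dE^[α 1] F (x_2) * cj (dE^[α 2] F) (y_2)`, a polynomial in the
variables of the half ring `Fin 3 × ι`, and let `l_0, l_1, l_2` be the derivatives along the leg in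
the slots `x_1, x_2, y_2` (for `y_2` with coefficients `e a` instead of `conj (e a)`), so
`l_i (Φ α) = Φ (α + δ_i)`. The creation operators are
`X_0 = xi_1 - c 1 • l_2`, `X_1 = xi_2 - c 0 • l_2`, `X_2 = eta_2 - c 1 • l_0 - c 0 • l_1`; they
satisfy `l_i X_j = X_j l_i + δ_ij`. With `θ` the reflection (`rename θ ∘ cj`) and
`⟨v, u⟩ = L (rename (thS ∘ ltS) (cj v) * rename ltS u)`, `step` gives
`⟨v, X_j u⟩ = ∑ i, Mc c i j * ⟨l_i v, u⟩` and `⟨X_i v, u⟩ = ∑ j, Mc c i j * ⟨v, l_j u⟩`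
(the derivative inside the half is cancelled by the correction in `X_j`).
By induction on the left word `w` (then, for `w = []`, on `w'`)
`Re ⟨X_w Φ α, X_w' Φ β⟩ = Lam (θ(symbol α) * (symbol β) * WT c w w')` where
`symbol α = ∏ i, X (ltS i) ^ α i`: this is exactly the recursion of `Wd`. Now apply `RowRP` to
`u = ∑ i, X_{w i} (A i)(l) Φ 0` and expand. -/
def RowTW : Prop := ∀ (ι : Type) [Fintype ι] [DecidableEq ι] (c : Fin 3 → ℝ), Adm c →
  ∀ (L : MvPolynomial (Sl × ι) ℂ →ₗ[ℂ] ℂ), IsG (KC c) L → ∀ (e : ι → ℂ) (F : MvPolynomial ι ℂ),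
  ∑ a, e a * conj (e a) = 1 →
  ∀ (n : ℕ) (w : Fin n → List (Fin 3)) (A : Fin n → MvPolynomial (Fin 3) ℝ),
    0 ≤ Lam L e F (∑ i, ∑ j, rename thS (rename ltS (A i)) * rename ltS (A j) * WT c (w i) (w j))

/-! ## D. The certificate -/

/-- the symbol of `e_1(ξ) e_2(ξ) e_3(η)` -/
noncomputable def P1 (c : Fin 3 → ℝ) : Sy :=
  ∑ i, (WH c [i, 0, 1] [0, 1, 2] + WH c [i, 0, 2] [0, 1, 2] + WH c [i, 1, 2] [0, 1, 2])

/-- the symbol of `e_3(ξ) e_3(η)` -/
noncomputable def P2 (c : Fin 3 → ℝ) : Sy := WH c [0, 1, 2] [0, 1, 2]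

/-- the permanent of the circulant -/
def perc (c : Fin 3 → ℝ) : ℝ := c 0 ^ 3 + c 1 ^ 3 + c 2 ^ 3 + 3 * c 0 * c 1 * c 2

/-- the value of `e_1(ξ) e_2(ξ) e_3(η)` for `F = 1` (when `c 0 + c 1 + c 2 = 3`) -/
def n9 (c : Fin 3 → ℝ) : ℝ :=
  9 * (c 0 ^ 2 + c 1 ^ 2 + c 2 ^ 2 + c 0 * c 1 + c 0 * c 2 + c 1 * c 2)

/-- the polynomial of the leg inequality -/
noncomputable def HP (c : Fin 3 → ℝ) : Sy := C (perc c) * P1 c - C (n9 c) * P2 c

/-- the path -/
def cr (a r : ℝ) : Fin 3 → ℝ := ![1 + r * (2 - a), 1 + r * (a - 1), 1 - r]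

/-- **pt:CE** the certificate (helper40, helper99, helper92, helper96 give the squares).
`3/2 (HP + θ HP) = ∑_k d_k ∑_{i<3} rot^i (square_k)`, where `square_k` is the polynomial in `pos` of
one row `∑_i A_{k,i} X_{w_i}`, `d_k ≥ 0`. -/
def CE (a : ℝ) : Prop := ∀ r : ℝ, 0 < r → r < 1 → ∀ Λ : Sy →ₗ[ℝ] ℝ, IsRing (cr a r) Λ →
  0 ≤ Λ (HP (cr a r))

/-! ## E. Assembly -/

/-- the leg inequality at `c` -/
def LEG (c : Fin 3 → ℝ) : Prop := ∀ (ι : Type) [Fintype ι] [DecidableEq ι]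
  (L : MvPolynomial (Sl × ι) ℂ →ₗ[ℂ] ℂ), IsG (KC c) L → ∀ (e : ι → ℂ) (F : MvPolynomial ι ℂ),
  ∑ a, e a * conj (e a) = 1 →
  n9 c * (L (xi e 0 * xi e 1 * xi e 2 * (eta e 0 * eta e 1 * eta e 2) * GM e F 0 0)).re ≤
    perc c * (L ((xi e 0 + xi e 1 + xi e 2) *
      (xi e 0 * xi e 1 + xi e 0 * xi e 2 + xi e 1 * xi e 2) *
      (eta e 0 * eta e 1 * eta e 2) * GM e F 0 0)).re

/-- **pt:LE** the leg inequality from the rows of sections B, C and the certificate. -/
def RowLE : Prop := RowLR → RowWH → RowTW → ∀ a : ℝ, 0 ≤ a → a ≤ 3 → CE a →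
  ∀ r : ℝ, 0 < r → r < 1 → LEG (cr a r)

/-- the matrix `circ c ⊗ B` -/
noncomputable def KB {m : ℕ} (c : Fin 3 → ℝ) (B : Matrix (Fin m) (Fin m) ℂ) :
    Matrix (Fin 3 × Fin m) (Fin 3 × Fin m) ℂ :=
  Matrix.of fun x y => ((circ c x.1 y.1 : ℝ) : ℂ) * B x.2 y.2

/-- **pt:LG** the leg inequality for permanents: with `M = circ c ⊗ B`, `s` a row of `B`,
`n9 c / 3 * Re per M ≤ perc c * ∑ p, Re per (M with the row (p, s) replaced by (q, t) ↦ B s t)`.
Proof. `B s t = ∑ i, l s i * conj (l t i)` (`helper80.LSZ.exists_fac`). Let `L` be the functional of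
`RowEX` for `KC c`. By `RowWK` (kets `α (p, s) = l s` in the slot `inl p`, bras
`β (q, t) = conj (l t)` in the slot `inr q`)
`per M = L (∏_{p,s} ℓ_s(x_p) * ∏_{q,t} conj ℓ_t (y_q))`, and the matrix with the row replaced is
obtained by putting `(1/3) ∑_{p'} ℓ_s (x_{p'})` for `ℓ_s(x_p)`, because `∑_{p'} circ c p' q = 3`. So
`∑ p, per (…) = 1/3 * L (e_1 e_2 (ℓ_s(x)) * e_3 (conj ℓ_s(y)) * G)` where `G = GM e F 0 0`,
`F = ∏_{t ≠ s} ℓ_t`, and `per M = L (e_3 (ℓ_s(x)) * e_3 (conj ℓ_s (y)) * G)`. If `l s = 0` both sides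
are `0`; otherwise `l s = b • e` with `b > 0`, `∑ |e a|^2 = 1`, and the claim is `b ^ 6 / 3` times
`LEG c`. -/
def RowLG : Prop := RowEX → RowWK → ∀ (c : Fin 3 → ℝ), c 0 + c 1 + c 2 = 3 → LEG c →
  ∀ (m : ℕ) (B : Matrix (Fin m) (Fin m) ℂ), B.PosSemidef → ∀ s : Fin m,
  n9 c / 3 * (KB c B).permanent.re ≤ perc c *
    ∑ p : Fin 3, ((KB c B).updateRow (p, s) (fun y => B s y.2)).permanent.re

/-- **pt:DV** the derivative of the permanent along the path. Proof: the permanent is a sum of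
products, and `circ (cr a r) p q` has derivative `(circ (cr a r) p q - 1) / r` for `r ≠ 0`
(the entries are `1 + r * κ`); a row `(κ_{pq} B s t)` is `1/r` times (the old row minus the row
`B s t`), and the permanent is linear in each row. -/
def RowDV : Prop := ∀ (a : ℝ) (m : ℕ) (B : Matrix (Fin m) (Fin m) ℂ) (r : ℝ), 0 < r →
  HasDerivAt (fun r => (KB (cr a r) B).permanent.re)
    (r⁻¹ * ∑ s : Fin m, (3 * (KB (cr a r) B).permanent.re -
      ∑ p : Fin 3, ((KB (cr a r) B).updateRow (p, s) (fun y => B s y.2)).permanent.re)) r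

/-- **pt:TR** the trace inequality: for positive semidefinite `X`, `Y` of size `n`
`(Tr (X Y)) ^ 3 ≤ n ^ 2 * Tr ((X Y) ^ 3)` (both traces are real). Proof: with `X = Z * Z` or
`X = A^* A`, `Tr ((X Y) ^ j) = Tr ((A Y A^*) ^ j)` and `A Y A^*` is positive semidefinite: its
eigenvalues `λ_i ≥ 0` satisfy `(∑ λ_i) ^ 3 ≤ n ^ 2 * ∑ λ_i ^ 3` (`inner_le_Lp_mul_Lq` or
`Finset.inner_mul_le_norm_mul_norm`; `Mathlib`: `inner_le_nnorm_mul_nnorm`,
`Finset.sum_pow_le_pow_sum`; see `helper16.LSZ.sim_diag`, spectral theorem). -/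
def RowTR : Prop := ∀ (S : Type) [Fintype S] [DecidableEq S] (X Y : Matrix S S ℂ),
  X.PosSemidef → Y.PosSemidef →
  (X * Y).trace.re ^ 3 ≤ (Fintype.card S : ℝ) ^ 2 * ((X * Y * (X * Y) * (X * Y)).trace).re ∧
  0 ≤ (X * Y).trace.re

/-- **pt:BL** the base: `circ (c0, c1, 0) ⊗ B`. For `S, T` subsets of `Fin m` let
`GG B S T` be the partial permanent with rows `S` and columns `T` and `VV B S T` the one
with the complementary rows and columns (`helper16/LSZ/Star.lean`). Then
`per = ∑_{S_0,S_1,S_2,T_0,T_1,T_2} c0^{|S_0|+|S_1|+|S_2|} c1^{3m-…} GG S_0 T_0 GG S_1 T_1 GG S_2 T_2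
VV S_0 T_1 VV S_1 T_2 VV S_2 T_0`: the row block `p` sends its rows `S_p` to the column block `p` (columns `T_p`)
and the rest to the column block `p+1`, so that the columns of the block `p` outside `T_p` come from
the row block `p-1`. (`helper16.LSZ.kron_expand` gives this with `s i a`, `r i' b`: the terms with a
value `i' = i + 2` vanish because the entry is `0 ^ (positive)`.) All partial permanents with
`|S| ≠ |T|` vanish, so all six sets have the same size. -/
def RowBL : Prop := ∀ (m : ℕ) (B : Matrix (Fin m) (Fin m) ℂ) (c0 c1 : ℝ),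
  (KB ![c0, c1, 0] B).permanent = ∑ k ∈ Finset.range (m + 1),
    (((c0 ^ 3) ^ k * (c1 ^ 3) ^ (m - k) : ℝ) : ℂ) *
    ∑ S : Fin 3 → Finset (Fin m), ∑ T : Fin 3 → Finset (Fin m),
      if (∀ p, (S p).card = k) ∧ (∀ p, (T p).card = k) then
        ∏ p : Fin 3, (Pool.Agent.helper16.LSZ.GG B (S p) (T p) *
          Pool.Agent.helper16.LSZ.VV B (S p) (T (p + 1))) else 0

/-- **pt:BA** the base inequality, from `RowBL`, `RowTR`. Proof: for fixed `k` the inner sum is
`Tr ((X Y) ^ 3)` with `X S T = GG B S T`, `Y T S = VV B S T` (i.e. `Y` is the transpose of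
`VV`) restricted to the subsets of size `k`, both positive semidefinite
(`GG_posSemidef`, `VV_posSemidef`, submatrix, transpose), and
`Tr (X Y) = ∑_{S,T} GG B S T * VV B S T = (m choose k) per B` (Laplace expansion for each `S`), so by
`RowTR` the inner sum is at least `(m choose k) (per B) ^ 3`; sum over `k` with the binomial
theorem. -/
def RowBA : Prop := RowBL → RowTR → ∀ (m : ℕ) (B : Matrix (Fin m) (Fin m) ℂ), B.PosSemidef →
  ∀ c0 c1 : ℝ, 0 ≤ c0 → 0 ≤ c1 →
  (c0 ^ 3 + c1 ^ 3) ^ m * B.permanent.re ^ 3 ≤ (KB ![c0, c1, 0] B).permanent.re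

/-- the target -/
def PateThree : Prop := ∀ (m : ℕ) (B : Matrix (Fin m) (Fin m) ℂ), B.PosSemidef →
  (6 : ℂ) ^ m * B.permanent ^ 3 ≤ (Pool.Agent.helper80.LSZ.kron1 3 B).permanent

/-- **pt:AS** assembly. Proof: let `N r = Re per (KB (cr a r) B)`, `q r = perc (cr a r) > 0`. The
polynomial identity `r q'(r) = 3 q(r) - n9 (cr a r) / 3` and `RowLG`, `RowDV` give
`(N / q ^ m)' = (N' q - m N q') / q ^ (m+1) ≤ 0` on `(0, 1)`; `N / q ^ m` is continuous on `[0, 1]`, so
`N 0 / 6 ^ m ≥ N 1 / q 1 ^ m ≥ (Re per B) ^ 3` by `RowBA` (`cr a 1 = ![3 - a, a, 0]`). `KB (cr a 0) B`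
is `J_3 ⊗ B`; the permanents of positive semidefinite matrices are real and `≥ 0`
(`helper80.LSZ.per_real`, `per_nonneg`). -/
def RowAS : Prop := ∀ a : ℝ, 0 ≤ a → a ≤ 3 →
  (∀ r : ℝ, 0 < r → r < 1 → ∀ (m : ℕ) (B : Matrix (Fin m) (Fin m) ℂ), B.PosSemidef →
    ∀ s : Fin m, n9 (cr a r) / 3 * (KB (cr a r) B).permanent.re ≤ perc (cr a r) *
      ∑ p : Fin 3, ((KB (cr a r) B).updateRow (p, s) (fun y => B s y.2)).permanent.re) →
  RowDV →
  (∀ (m : ℕ) (B : Matrix (Fin m) (Fin m) ℂ), B.PosSemidef → ∀ c0 c1 : ℝ, 0 ≤ c0 → 0 ≤ c1 →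
    (c0 ^ 3 + c1 ^ 3) ^ m * B.permanent.re ^ 3 ≤ (KB ![c0, c1, 0] B).permanent.re) →
  PateThree

/-- everything together -/
theorem pateThree_of (a : ℝ) (ha : 0 ≤ a) (ha3 : a ≤ 3) (hEX : RowEX) (hWK : RowWK) (hLR : RowLR)
    (hWH : RowWH) (hTW : RowTW) (hCE : CE a) (hLE : RowLE) (hLG : RowLG) (hDV : RowDV)
    (hTR : RowTR) (hBL : RowBL) (hBA : RowBA) (hAS : RowAS) : PateThree := by
  refine hAS a ha ha3 ?_ hDV (hBA hBL hTR)
  intro r h0 h1 m B hB s
  refine hLG hEX hWK (cr a r) ?_ (hLE hLR hWH hTW a ha ha3 hCE r h0 h1) m B hB s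
  simp [cr]
  ring

end Pool.Agent.helper59.PT
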